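import Mathlib

open Set Filter Topology Metric Complex
open scoped ComplexConjugate Real

namespace Pool.Agent.Results.MP_e1108f_an.Sing

/-- bounded analytic functions on the unit disc -/
def Hinf (g : ℂ → ℂ) : Prop :=
  DifferentiableOn ℂ g (ball 0 1) ∧ ∃ M, ∀ z ∈ ball (0 : ℂ) 1, ‖g z‖ ≤ M

/-- the supremum norm on the unit disc -/
noncomputable def nrm (g : ℂ → ℂ) : ℝ := sSup ((fun z => ‖g z‖) '' ball 0 1)

/-- `g` is a minimal-norm interpolant of `f` on the sequence `z` -/
def MinInt (z : ℕ → ℂ) (f g : ℂ → ℂ) : Prop :=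
  Hinf g ∧ (∀ n, g (z n) = f (z n)) ∧ ∀ h, Hinf h → (∀ n, h (z n) = f (z n)) → nrm g ≤ nrm h

/-- Blaschke products with finitely or infinitely many zeros -/
def Blaschke (B : ℂ → ℂ) : Prop :=
  ∃ (l : ℂ) (k : ℕ) (J : Set ℕ) (a : J → ℂ), ‖l‖ = 1 ∧ (∀ j, a j ≠ 0 ∧ ‖a j‖ < 1) ∧
    Summable (fun j => 1 - ‖a j‖) ∧ ∀ z ∈ ball (0 : ℂ) 1,
      B z = l * z ^ k * ∏' j, (‖a j‖ / a j * ((a j - z) / (1 - conj (a j) * z)))

theorem quot {U : Set ℂ} (o : IsOpen U) {φ E : ℂ → ℂ} (h1 : DifferentiableOn ℂ φ U)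
    (h2 : DifferentiableOn ℂ E U) (h : ∀ u ∈ U, E u = 0 → φ u = 0 ∧ deriv E u ≠ 0) :
    ∃ g, DifferentiableOn ℂ g U ∧ ∀ u ∈ U, φ u = E u * g u := by
  classical
  refine ⟨fun u => if E u = 0 then deriv φ u / deriv E u else φ u / E u, fun u hu => ?_,
    fun u hu => ?_⟩
  · have m := o.mem_nhds hu
    refine DifferentiableAt.differentiableWithinAt ?_
    by_cases e : E u = 0
    · obtain ⟨a, b⟩ := h u hu e
      have d1 := ((differentiableOn_dslope m).2 h1).differentiableAt m
      have d2 := ((differentiableOn_dslope m).2 h2).differentiableAt m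
      rw [← dslope_same] at b
      refine (d1.div d2 b).congr_of_eventuallyEq ?_
      filter_upwards [d2.continuousAt.eventually_ne b] with v hv
      rcases eq_or_ne v u with rfl | n
      · simp [e]
      · have c1 := sub_smul_dslope φ u v
        have c2 := sub_smul_dslope E u v
        rw [a, sub_zero, smul_eq_mul] at c1
        rw [e, sub_zero, smul_eq_mul] at c2
        have := sub_ne_zero.2 n
        rw [if_neg (c2 ▸ mul_ne_zero this hv), ← c1, ← c2, Pi.div_apply, mul_div_mul_left _ _ this]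
    · refine ((h1.differentiableAt m).div (h2.differentiableAt m) e).congr_of_eventuallyEq ?_
      filter_upwards [(h2.differentiableAt m).continuousAt.eventually_ne e] with v hv
      simp [hv]
  · by_cases e : E u = 0
    · simp [e, (h u hu e).1]
    · simp only [e, if_false]; field_simp

theorem key (a : ℝ) (w : ℂ) : ‖1 - a * w‖ ^ 2 = ‖w - a‖ ^ 2 + (1 - a ^ 2) * (1 - ‖w‖ ^ 2) := by
  simp [Complex.sq_norm, normSq_apply]; ring

theorem half {G : ℂ → ℂ} (hd : DifferentiableOn ℂ G {u | 0 < u.re})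
    (hb : ∀ u : ℂ, 0 < u.re → ‖G u‖ ≤ 1) (h1 : ∀ n : ℤ, G (1 + n * (2 * π * I)) = exp (-1))
    (h2 : G 2 = exp (-2)) {u : ℂ} (hu : 0 < u.re) : G u = exp (-u) := by
  set a := Real.exp (-1) with ha
  have a0 : 0 < a := Real.exp_pos _
  have a1 : a < 1 := Real.exp_lt_one_iff.2 (by norm_num)
  have ac : exp (-1) = a := by simp [ha]
  have o : IsOpen {u : ℂ | 0 < u.re} := isOpen_lt continuous_const continuous_re
  have dn : ∀ w : ℂ, ‖w‖ ≤ 1 → 1 - a * w ≠ 0 := fun w hw e => by
    have := congrArg norm (sub_eq_zero.1 e)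
    rw [norm_one, norm_mul, norm_real, Real.norm_of_nonneg a0.le] at this
    nlinarith [norm_nonneg w]
  have ne : ∀ u : ℂ, ‖exp (-u)‖ = Real.exp (-u.re) := fun u => by simp [norm_exp]
  have ne1 : ∀ u : ℂ, 0 < u.re → ‖exp (-u)‖ ≤ 1 := fun u h => by
    rw [ne]; exact Real.exp_le_one_iff.2 (by linarith)
  let φ : ℂ → ℂ := fun u => (G u - a) / (1 - a * G u)
  have φ1 : ∀ u : ℂ, 0 < u.re → ‖φ u‖ ≤ 1 := fun u h => by
    rw [norm_div, div_le_one (norm_pos_iff.2 (dn _ (hb u h)))]
    refine abs_le_of_sq_le_sq' ?_ (norm_nonneg _) |>.2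
    have : ‖G u‖ ^ 2 ≤ 1 := pow_le_one₀ (norm_nonneg _) (hb u h)
    have : a ^ 2 ≤ 1 := pow_le_one₀ a0.le a1.le
    rw [key]; nlinarith
  obtain ⟨g, g1, g2⟩ := quot o (φ := φ) (E := fun u => exp (-u) - a)
    ((hd.sub_const _).div ((hd.const_mul _).const_sub _) fun u h => dn _ (hb u h)) (by fun_prop)
    fun u _ e => by
      rw [sub_eq_zero] at e
      obtain ⟨n, hn⟩ := exp_eq_exp_iff_exists_int.1 (e.trans ac.symm)
      have d : HasDerivAt (fun u => exp (-u) - a) (exp (-u) * -1) u :=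
        (hasDerivAt_neg u).cexp.sub_const _
      refine ⟨?_, by rw [d.deriv]; simp⟩
      have : u = 1 + (-n : ℤ) * (2 * π * I) := by push_cast; linear_combination -hn
      simp only [φ]; rw [this, h1, ac, sub_self, zero_div]
  obtain ⟨c, c0, c1, c2⟩ : ∃ c, 0 < c ∧ c ≤ Real.exp (-(1 / 2)) - a ∧ c ≤ a - Real.exp (-2) :=
    ⟨_, lt_min (sub_pos.2 (Real.exp_lt_exp.2 (by norm_num)))
      (sub_pos.2 (Real.exp_lt_exp.2 (by norm_num))), min_le_left _ _, min_le_right _ _⟩
  have lo : ∀ u : ℂ, u.re ≤ 1 / 2 → c ≤ ‖exp (-u) - a‖ := fun u h => by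
    have := norm_sub_norm_le (exp (-u)) a
    rw [ne, norm_real, Real.norm_of_nonneg a0.le] at this
    linarith [Real.exp_le_exp.2 (neg_le_neg h)]
  have gb : ∀ u : ℂ, 0 < u.re → ‖g u‖ ≤ 1 / c := fun u h => by
    let n := ⌊(u.im + π) / (2 * π)⌋
    have p := Real.pi_pos
    have n1 : n * (2 * π) ≤ u.im + π := (le_div_iff₀ (by positivity)).1 (Int.floor_le _)
    have n2 : u.im + π < (n + 1) * (2 * π) := (div_lt_iff₀ (by positivity)).1 (Int.lt_floor_add_one _)
    have l1 : min (1 / 2) u.re < max 2 u.re := (min_le_left _ _).trans_lt (lt_max_of_lt_left (by norm_num))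
    have l2 : n * (2 * π) - π < n * (2 * π) + π := by linarith
    have l3 : 0 < min (1 / 2) u.re := lt_min one_half_pos h
    refine norm_le_of_forall_mem_frontier_norm_le (U := Ioo (min (1 / 2) u.re) (max 2 u.re) ×ℂ
      Ioo (n * (2 * π) - π) (n * (2 * π) + π)) ((isBounded_Ioo _ _).reProdIm (isBounded_Ioo _ _))
      (DifferentiableOn.diffContOnCl (g1.mono ?_)) (fun z hz => ?_) ?_
    · rw [closure_reProdIm, closure_Ioo l1.ne]
      exact fun z hz => l3.trans_le hz.1.1
    · rw [frontier_reProdIm, closure_Ioo l1.ne, frontier_Ioo l1, frontier_Ioo l2] at hz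
      have z0 : 0 < z.re := by
        rcases hz with hz | ⟨hz | hz, -⟩
        · exact l3.trans_le hz.1.1
        · exact l3.trans_eq hz.symm
        · exact (l3.trans l1).trans_eq hz.symm
      have : c ≤ ‖exp (-z) - a‖ := by
        rcases hz with ⟨-, hz⟩ | ⟨hz | hz, -⟩
        · have e : Real.cos z.im = -1 := by
            rcases hz with hz | hz
            · rw [hz, Real.cos_int_mul_two_pi_sub_pi]
            · rw [hz, Real.cos_int_mul_two_pi_add_pi]
          have := neg_le_abs (exp (-z) - a).re |>.trans (abs_re_le_norm _)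
          simp only [sub_re, exp_re, neg_im, Real.cos_neg, e, ofReal_re] at this
          linarith [Real.exp_pos (-z).re, Real.exp_pos (-2)]
        · exact lo z (hz.trans_le (min_le_left _ _))
        · have := norm_sub_norm_le (a : ℂ) (exp (-z))
          rw [ne, norm_real, Real.norm_of_nonneg a0.le, norm_sub_rev] at this
          linarith [Real.exp_le_exp.2 (neg_le_neg ((le_max_left 2 u.re).trans_eq hz.symm))]
      have b := φ1 z z0
      rw [g2 z z0, norm_mul] at b
      rw [le_div_iff₀ c0]; nlinarith [norm_nonneg (g z)]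
    · rw [closure_reProdIm, closure_Ioo l1.ne, closure_Ioo l2.ne]
      exact ⟨⟨min_le_right _ _, le_max_right _ _⟩, by linarith, by linarith⟩
  let H : ℂ → ℂ := fun u => g u * (1 - a * exp (-u))
  have H1 : DifferentiableOn ℂ H {u | 0 < u.re} := g1.mul (by fun_prop)
  have Hb : ∀ u : ℂ, 0 < u.re → ‖H u‖ ≤ 1 / c * 2 := fun u h => by
    rw [norm_mul]
    refine mul_le_mul (gb u h) ((norm_sub_le _ _).trans ?_) (norm_nonneg _) (by positivity)
    rw [norm_one, norm_mul, norm_real, Real.norm_of_nonneg a0.le]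
    nlinarith [ne1 u h, norm_nonneg (exp (-u))]
  have H2 : ∀ u : ℂ, 0 < u.re → ‖H u‖ ≤ 1 := fun u h => by
    have t : Tendsto (fun ε : ℝ => √(1 + (1 - Real.exp (-ε) ^ 2) / c ^ 2)) (𝓝[>] 0) (𝓝 1) := by
      refine tendsto_nhdsWithin_of_tendsto_nhds (Continuous.tendsto' (by fun_prop) _ _ (by simp))
    refine ge_of_tendsto t ?_
    filter_upwards [Ioo_mem_nhdsGT (lt_min h one_half_pos)] with ε ⟨e0, e1⟩
    rw [lt_min_iff] at e1
    have m : ∀ w : ℂ, 0 ≤ w.re → 0 < (w + ε).re := fun w hw => by simp; linarith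
    have := PhragmenLindelof.right_half_plane_of_bounded_on_real (f := fun w => H (w + ε))
      (C := √(1 + (1 - Real.exp (-ε) ^ 2) / c ^ 2)) (z := u - ε) (DifferentiableOn.diffContOnCl (by
        rw [closure_setOfPred_lt_re]
        exact H1.comp (by fun_prop) fun w hw => m w hw)) ⟨0, two_pos, 0, ?_⟩ ?_ (fun x => ?_)
      (by simp; linarith)
    · simpa using this
    · refine Asymptotics.IsBigO.of_bound (1 / c * 2) (eventually_inf_principal.2
        (.of_forall fun w hw => by simpa using Hb _ (m w (le_of_lt hw))))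
    · exact isBoundedUnder_of_eventually_le ((eventually_ge_atTop 0).mono fun x hx =>
        Hb _ (m x (by simpa)))
    · set w : ℂ := x * I + ε
      have w0 : w.re = ε := by simp [w]
      have b := φ1 w (w0 ▸ e0)
      have l := lo w (w0 ▸ e1.2.le)
      have k := key a (exp (-w))
      rw [ne, w0] at k
      rw [g2 w (show 0 < w.re from w0 ▸ e0), norm_mul] at b
      refine Real.le_sqrt_of_sq_le ?_
      have r : 0 ≤ 1 - Real.exp (-ε) ^ 2 := sub_nonneg.2 (pow_le_one₀ (Real.exp_pos _).le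
        (Real.exp_le_one_iff.2 (by linarith)))
      have q := pow_le_pow_left₀ (norm_nonneg _) (gb w (w0 ▸ e0)) 2
      have s := pow_le_one₀ (n := 2) (by positivity) b
      simp only [H]
      rw [norm_mul, mul_pow, k, div_eq_mul_one_div, ← one_div_pow]
      nlinarith [mul_le_mul_of_nonneg_right q r, mul_nonneg (sq_nonneg ‖g w‖) (mul_nonneg
        (sq_nonneg a) r)]
  have fin : ∀ u : ℂ, 0 < u.re → (G u - a) * (1 - a * exp (-u)) =
      (exp (-u) - a) * (1 - a * G u) * H u := fun u h => by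
    have := g2 u h
    simp only [φ] at this
    rw [div_eq_iff (dn _ (hb u h))] at this
    simp only [H]; rw [this]; ring
  have H3 : H 2 = 1 := by
    have := fin 2 (by simp)
    rw [h2] at this
    refine (mul_left_cancel₀ (mul_ne_zero (fun e => ?_) (dn _ (ne1 2 (by simp))))
      ((mul_one _).trans this)).symm
    have := congrArg norm (sub_eq_zero.1 e)
    rw [ne, norm_real, Real.norm_of_nonneg a0.le, ha, Real.exp_eq_exp] at this
    norm_num at this
  have := eqOn_of_isPreconnected_of_isMaxOn_norm (convex_halfSpace_re_gt 0).isPreconnected o H1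
    (c := 2) (by simp) (fun w hw => by simpa [H3] using H2 w hw) hu
  have e := fin u hu
  rw [this, Function.const_apply, H3] at e
  have n : (1 - (a : ℂ) ^ 2) ≠ 0 := by
    norm_cast; nlinarith
  exact mul_left_cancel₀ n (by linear_combination e)

noncomputable def cay (u : ℂ) : ℂ := (u - 1) / (u + 1)

theorem ne1 {u : ℂ} (h : 0 < u.re) : u + 1 ≠ 0 := fun e => by
  have := congrArg re e; simp at this; linarith

theorem cay_sq {u : ℂ} (h : 0 < u.re) : 1 - ‖cay u‖ ^ 2 = 4 * u.re / ‖u + 1‖ ^ 2 := by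
  have := norm_pos_iff.2 (ne1 h)
  rw [cay, norm_div]; field_simp
  simp [Complex.sq_norm, normSq_apply]; ring

theorem cay_lt {u : ℂ} (h : 0 < u.re) : ‖cay u‖ < 1 := by
  have := norm_pos_iff.2 (ne1 h)
  have : 0 < 1 - ‖cay u‖ ^ 2 := by rw [cay_sq h]; positivity
  nlinarith [norm_nonneg (cay u)]

noncomputable def S (z : ℂ) : ℂ := exp (-((1 + z) / (1 - z)))

theorem S_cay {u : ℂ} (h : 0 < u.re) : S (cay u) = exp (-u) := by
  have := ne1 h
  rw [S, cay]; congr 2; field_simp; ring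

theorem surj {z : ℂ} (h : z ∈ ball (0 : ℂ) 1) : ∃ u : ℂ, 0 < u.re ∧ cay u = z := by
  rw [mem_ball_zero_iff] at h
  have n : 1 - z ≠ 0 := fun e => by rw [← sub_eq_zero.1 e] at h; simp at h
  refine ⟨(1 + z) / (1 - z), ?_, by rw [cay]; field_simp; ring⟩
  have : ‖z‖ ^ 2 < 1 := by nlinarith [norm_nonneg z]
  rw [Complex.sq_norm, normSq_apply] at this
  rw [div_re, ← add_div]
  exact div_pos (by simp; nlinarith) (normSq_pos.2 n)

noncomputable def U : ℕ → ℂ
  | 0 => 2
  | n + 1 => 1 + Denumerable.ofNat ℤ n * (2 * π * I)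

theorem U_re (n : ℕ) : 0 < (U n).re ∧ (U n).re ≤ 2 := by cases n <;> simp [U]

theorem U_sep {m n : ℕ} (h : m ≠ n) : 1 ≤ ‖U m - U n‖ := by
  rcases m with _ | m <;> rcases n with _ | n
  · exact (h rfl).elim
  · exact le_trans (by norm_num [U]) (re_le_norm _)
  · rw [norm_sub_rev]; exact le_trans (by norm_num [U]) (re_le_norm _)
  · have : Denumerable.ofNat ℤ m - Denumerable.ofNat ℤ n ≠ 0 := sub_ne_zero.2 fun e =>
      h (congrArg _ ((Denumerable.eqv ℤ).symm.injective e))
    have a : (1 : ℝ) ≤ |((Denumerable.ofNat ℤ m - Denumerable.ofNat ℤ n : ℤ) : ℝ)| := by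
      exact_mod_cast Int.one_le_abs this
    rw [U, U, add_sub_add_left_eq_sub, ← sub_mul, ← Int.cast_sub, norm_mul, norm_intCast]
    simp only [norm_mul, norm_I, norm_real, Complex.norm_ofNat, Real.norm_of_nonneg Real.pi_pos.le]
    nlinarith [Real.pi_gt_three]

theorem uniq {g : ℂ → ℂ} (h : Hinf g) (h1 : nrm g ≤ 1) (h2 : ∀ n, g (cay (U n)) = S (cay (U n))) :
    EqOn g S (ball 0 1) := fun z hz => by
  obtain ⟨u, a, rfl⟩ := surj hz
  obtain ⟨M, hM⟩ := h.2
  have m : ∀ u : ℂ, 0 < u.re → cay u ∈ ball (0 : ℂ) 1 := fun u h => mem_ball_zero_iff.2 (cay_lt h)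
  rw [S_cay a]
  refine half (G := fun u => g (cay u)) (h.1.comp ((differentiableOn_id.sub_const 1).div
    (differentiableOn_id.add_const 1) fun u h => ne1 h) m) (fun u b => le_trans (le_csSup
      ⟨M, by rintro _ ⟨w, c, rfl⟩; exact hM w c⟩ (mem_image_of_mem (fun z => ‖g z‖) (m u b))) h1) (fun n => ?_) ?_ a
  · have := h2 (Encodable.encode n + 1)
    rw [S_cay (U_re _).1, U, Denumerable.ofNat_encode] at this
    rw [this, exp_eq_exp_iff_exists_int]
    exact ⟨-n, by push_cast; ring⟩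
  · exact (h2 0).trans (S_cay (U_re 0).1)

theorem result : ∃ (z : ℕ → ℂ) (f g : ℂ → ℂ), (∀ n, ‖z n‖ < 1) ∧ Summable (fun n => 1 - ‖z n‖) ∧
    (∃ δ > 0, ∀ m n, m ≠ n → δ ≤ ‖(z m - z n) / (1 - conj (z n) * z m)‖) ∧ Hinf f ∧
    MinInt z f g ∧ (∀ h, MinInt z f h → EqOn h g (ball 0 1)) ∧
    ¬ ∃ (c : ℂ) (B : ℂ → ℂ), Blaschke B ∧ ∀ w ∈ ball (0 : ℂ) 1, g w = c * B w := by
  have b : ∀ w ∈ ball (0 : ℂ) 1, ‖S w‖ ≤ 1 := fun w hw => by
    obtain ⟨u, a, rfl⟩ := surj hw
    rw [S_cay a, norm_exp]; exact Real.exp_le_one_iff.2 (by simpa using a.le)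
  have hS : Hinf S := ⟨((differentiableOn_id.const_add 1).div (differentiableOn_id.const_sub 1)
    fun w hw e => by rw [← sub_eq_zero.1 e] at hw; simp at hw).neg.cexp, 1, b⟩
  have n1 : nrm S ≤ 1 := csSup_le ⟨_, 0, by simp, rfl⟩ (by rintro _ ⟨w, c, rfl⟩; exact b w c)
  refine ⟨fun n => cay (U n), S, S, fun n => cay_lt (U_re n).1, ?_, ⟨1 / 5, by norm_num,
    fun m n h => ?_⟩, hS, ⟨hS, fun _ => rfl, fun h a c => ?_⟩,
    fun h a => uniq a.1 ((a.2.2 S hS fun _ => rfl).trans n1) a.2.1, ?_⟩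
  · rw [← summable_nat_add_iff 1]
    refine ((Denumerable.eqv ℤ).symm.summable_iff (f := fun n : ℤ =>
      1 - ‖cay (1 + n * (2 * π * I))‖)).2 (Summable.of_norm_bounded_eventually
        (Real.summable_one_div_int_pow.2 one_lt_two) ?_)
    filter_upwards [(finite_singleton (0 : ℤ)).compl_mem_cofinite] with n hn
    have a : 0 < (1 + n * (2 * π * I) : ℂ).re := by simp
    have c := cay_sq a
    have d := cay_lt a
    have e : (0 : ℝ) < n ^ 2 := by have : (n : ℝ) ≠ 0 := Int.cast_ne_zero.2 hn; positivity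
    have p : 1 < π ^ 2 := by nlinarith [Real.pi_gt_three]
    rw [Real.norm_of_nonneg (by linarith)]
    refine le_trans (by nlinarith [norm_nonneg (cay (1 + n * (2 * π * I)))]) (c.le.trans ?_)
    rw [div_le_div_iff₀ (pow_pos (norm_pos_iff.2 (ne1 a)) 2) e, Complex.sq_norm, normSq_apply]
    simp; nlinarith
  · obtain ⟨a1, a2⟩ := U_re m
    obtain ⟨b1, b2⟩ := U_re n
    have c1 := ne1 a1
    have c2 := ne1 b1
    have c3 : conj (U n) + 1 ≠ 0 := ne1 (by simpa)
    have c4 : U m + conj (U n) ≠ 0 := fun e => by have := congrArg re e; simp at this; linarith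
    have e : (cay (U m) - cay (U n)) / (1 - conj (cay (U n)) * cay (U m)) =
        (U m - U n) / (U m + conj (U n)) * (conj (U n + 1) / (U n + 1)) := by
      have : 1 - conj (cay (U n)) * cay (U m) =
          2 * (U m + conj (U n)) / ((conj (U n) + 1) * (U m + 1)) := by
        simp only [cay, map_div₀, map_sub, map_add, map_one]; field_simp; ring
      rw [this]; simp only [cay, map_add, map_one]; field_simp; ring
    rw [e, norm_mul, norm_div, norm_div, norm_conj, div_self (norm_ne_zero_iff.2 c2), mul_one,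
      le_div_iff₀ (norm_pos_iff.2 c4)]
    have := norm_add_le (U m - U n) (U n + conj (U n))
    rw [← add_assoc, sub_add_cancel, add_conj, norm_real,
      Real.norm_of_nonneg (by linarith)] at this
    linarith [U_sep h]
  · rcases le_total (nrm h) 1 with e | e
    · exact (congrArg sSup (image_congr fun w hw => congrArg norm (uniq a e c hw))).ge
    · exact n1.trans e
  · rintro ⟨c, B, ⟨l, k, J, a, -, h1, -, h2⟩, h3⟩
    have nz : ∀ w ∈ ball (0 : ℂ) 1, B w ≠ 0 := fun w hw e =>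
      exp_ne_zero _ ((h3 w hw).trans (by rw [e, mul_zero]))
    have : IsEmpty J := ⟨fun j => nz _ (mem_ball_zero_iff.2 (h1 j).2) (by
      rw [h2 _ (mem_ball_zero_iff.2 (h1 j).2),
        (hasProd_zero_of_exists_eq_zero ⟨j, by simp⟩).tprod_eq, mul_zero])⟩
    have k0 : k = 0 := by
      by_contra e
      exact nz 0 (by simp) (by simp [h2, e])
    have m : ∀ u : ℂ, 0 < u.re → exp (-u) = c * l := fun u h => by
      have := mem_ball_zero_iff.2 (cay_lt h)
      rw [← S_cay h, h3 _ this, h2 _ this, k0]; simp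
    have := congrArg norm ((m 1 (by simp)).trans (m 2 (by simp)).symm)
    simp [norm_exp] at this

end Pool.Agent.Results.MP_e1108f_an.Sing
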